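import Mathlib

/-!
# MP_668654_co : the class of matroids without `M(K_4)`- and rank three whirl minors is wild

In every rank `r ≥ 3` there are very many pairwise non-isomorphic 3-connected matroids on `n`
elements that have neither an `M(K_4)`-minor nor a `W^3`-minor.  They are sparse paving matroids
whose circuit-hyperplanes form a constant weight code of minimum distance six (Graham and Sloane)
or, in rank three, a triangle-free triple system (Ruzsa and Szemeredi, Behrend).
-/

open Set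
open scoped Matroid

namespace Pool.Agent.Results.MP_668654_co.Wildness

/-- The three three-point lines of the rank three whirl on the points `0, ..., 5`. -/
def whirlLines : Finset (Finset (Fin 6)) := {{0, 1, 3}, {1, 2, 4}, {0, 2, 5}}

/-- The four three-point lines of `M(K_4)` on the points `0, ..., 5`. -/
def wheelLines : Finset (Finset (Fin 6)) := {{0, 1, 3}, {1, 2, 4}, {0, 2, 5}, {3, 4, 5}}

/-- `N` is isomorphic to the rank three matroid on `{0, ..., 5}` whose bases are the three-element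
sets that are not in `L`. -/
def IsCopy {α : Type*} (L : Finset (Finset (Fin 6))) (N : Matroid α) : Prop :=
  ∃ e : Fin 6 → α, Function.Injective e ∧ range e = N.E ∧
    ∀ X : Finset (Fin 6), N.IsBase (e '' (X : Set (Fin 6))) ↔ X.card = 3 ∧ X ∉ L

/-- `M` has no minor isomorphic to `M(K_4)` and no minor isomorphic to the rank three whirl. -/
def InEX {α : Type*} (M : Matroid α) : Prop :=
  ∀ N : Matroid α, N ≤m M → ¬ IsCopy wheelLines N ∧ ¬ IsCopy whirlLines N

/-- `M` is 3-connected: it has no `k`-separation with `k = 1` or `k = 2`. -/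
def ThreeConnected {α : Type*} (M : Matroid α) : Prop :=
  ∀ X ⊆ M.E, ∀ k : ℕ, (k = 1 ∨ k = 2) → (k : ℕ∞) ≤ X.encard → (k : ℕ∞) ≤ (M.E \ X).encard →
    M.eRank + k ≤ M.eRk X + M.eRk (M.E \ X)

/-- Isomorphism of two matroids with ground set `{0, ..., n - 1}`. -/
def Iso {n : ℕ} (M N : Matroid (Fin n)) : Prop :=
  ∃ σ : Equiv.Perm (Fin n), ∀ B : Set (Fin n), M.IsBase B ↔ N.IsBase (σ '' B)

/-! ### Sparse paving matroids from codes -/

variable {n r : ℕ}

/-- `H` is a family of `r`-sets with pairwise intersections of size at most `r - 2` and without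
triangles. -/
structure Code (r : ℕ) (H : Finset (Finset (Fin n))) : Prop where
  card_eq : ∀ A ∈ H, A.card = r
  inter : ∀ A ∈ H, ∀ B ∈ H, A ≠ B → (A ∩ B).card + 2 ≤ r
  triangle : ∀ A ∈ H, ∀ B ∈ H, ∀ C ∈ H, A ≠ B → B ≠ C → A ≠ C → (A ∩ B).card + 2 = r →
    (B ∩ C).card + 2 = r → (A ∩ C).card + 2 = r → (A ∩ B ∩ C).card + 3 = r → False

theorem Code.mono {H H' : Finset (Finset (Fin n))} (hH : Code r H) (h : H' ⊆ H) : Code r H' :=
  ⟨fun A hA => hH.card_eq A (h hA), fun A hA B hB => hH.inter A (h hA) B (h hB),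
    fun A hA B hB C hC => hH.triangle A (h hA) B (h hB) C (h hC)⟩

/-- Families of `r`-sets with pairwise intersections of size at most `r - 3`. -/
theorem Code.of_distance_six {H : Finset (Finset (Fin n))} (h1 : ∀ A ∈ H, A.card = r)
    (h2 : ∀ A ∈ H, ∀ B ∈ H, A ≠ B → (A ∩ B).card + 3 ≤ r) : Code r H := by
  refine ⟨h1, fun A hA B hB hne => ?_, fun A hA B hB C _ hAB _ _ h3 _ _ _ => ?_⟩
  · have := h2 A hA B hB hne
    omega
  · have := h2 A hA B hB hAB
    omega

/-- The bases: all `r`-sets outside `H`. -/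
def SpBase (r : ℕ) (H : Finset (Finset (Fin n))) (B : Set (Fin n)) : Prop :=
  ∃ A : Finset (Fin n), (A : Set (Fin n)) = B ∧ A.card = r ∧ A ∉ H

theorem not_both {H : Finset (Finset (Fin n))} (hH : Code r H) {I : Finset (Fin n)}
    {a b : Fin n} (ha : a ∉ I) (hab : a ≠ b) (hI : I.card + 1 = r) :
    insert a I ∉ H ∨ insert b I ∉ H := by
  by_contra hcon
  push Not at hcon
  obtain ⟨h1, h2⟩ := hcon
  have hne : insert a I ≠ insert b I := by
    intro h
    have : a ∈ insert b I := by rw [← h]; exact Finset.mem_insert_self a I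
    rcases Finset.mem_insert.1 this with h3 | h3
    · exact hab h3
    · exact ha h3
  have h3 := hH.inter _ h1 _ h2 hne
  have h4 : I.card ≤ (insert a I ∩ insert b I).card := by
    apply Finset.card_le_card
    intro x hx
    rw [Finset.mem_inter]
    exact ⟨Finset.mem_insert_of_mem hx, Finset.mem_insert_of_mem hx⟩
  omega

theorem exists_two {I : Finset (Fin n)} (hI : I.card + 2 ≤ n) :
    ∃ a b : Fin n, a ∉ I ∧ b ∉ I ∧ a ≠ b := by
  have h1 : 1 < (Iᶜ).card := by
    rw [Finset.card_compl, Fintype.card_fin]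
    omega
  obtain ⟨a, ha, b, hb, hab⟩ := Finset.one_lt_card.1 h1
  exact ⟨a, b, by simpa using ha, by simpa using hb, hab⟩

theorem exists_superset {I : Finset (Fin n)} {k : ℕ} (h1 : I.card ≤ k) (h2 : k ≤ n) :
    ∃ J : Finset (Fin n), I ⊆ J ∧ J.card = k := by
  obtain ⟨J, h3, h4, h5⟩ := Finset.exists_subsuperset_card_eq (Finset.subset_univ I) h1
    (by simpa using h2)
  exact ⟨J, h3, h5⟩

/-- Every set of at most `r - 1` elements lies in a base. -/
theorem small_subset_base {H : Finset (Finset (Fin n))} (hH : Code r H) (hr : 1 ≤ r)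
    (hn : r + 1 ≤ n) {I : Finset (Fin n)} (hI : I.card + 1 ≤ r) :
    ∃ A : Finset (Fin n), I ⊆ A ∧ A.card = r ∧ A ∉ H := by
  obtain ⟨J, h1, h2⟩ := exists_superset (I := I) (k := r - 1) (by omega) (by omega)
  obtain ⟨a, b, ha, hb, hab⟩ := exists_two (I := J) (by omega)
  rcases not_both hH ha hab (by omega : J.card + 1 = r) with h | h
  · exact ⟨insert a J, h1.trans (Finset.subset_insert a J), by
      rw [Finset.card_insert_of_notMem ha]; omega, h⟩
  · exact ⟨insert b J, h1.trans (Finset.subset_insert b J), by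
      rw [Finset.card_insert_of_notMem hb]; omega, h⟩

/-- Every set of at least `r + 1` elements contains a base. -/
theorem large_superset_base {H : Finset (Finset (Fin n))} (hH : Code r H) (hr : 1 ≤ r)
    {X : Finset (Fin n)} (hX : r + 1 ≤ X.card) :
    ∃ A : Finset (Fin n), A ⊆ X ∧ A.card = r ∧ A ∉ H := by
  obtain ⟨Y, h1, h2⟩ := Finset.exists_subset_card_eq hX
  obtain ⟨I, h3, h4⟩ := Finset.exists_subset_card_eq (s := Y) (n := r - 1) (by omega)
  have h5 : 1 < (Y \ I).card := by
    rw [Finset.card_sdiff_of_subset h3]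
    omega
  obtain ⟨a, ha, b, hb, hab⟩ := Finset.one_lt_card.1 h5
  rw [Finset.mem_sdiff] at ha hb
  rcases not_both hH ha.2 hab (by omega : I.card + 1 = r) with h | h
  · exact ⟨insert a I, Finset.insert_subset (h1 ha.1) (h3.trans h1), by
      rw [Finset.card_insert_of_notMem ha.2]; omega, h⟩
  · exact ⟨insert b I, Finset.insert_subset (h1 hb.1) (h3.trans h1), by
      rw [Finset.card_insert_of_notMem hb.2]; omega, h⟩

theorem spBase_exchange {H : Finset (Finset (Fin n))} (hH : Code r H) :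
    Matroid.ExchangeProperty (SpBase r H) := by
  rintro X Y ⟨A, rfl, hA, hAH⟩ ⟨B, rfl, hB, hBH⟩ a ha
  have haA : a ∈ A := by simpa using ha.1
  have haB : a ∉ B := by simpa using ha.2
  have hcard : (A \ B).card = (B \ A).card := Finset.card_sdiff_comm (by omega)
  have h1 : 1 ≤ (B \ A).card := by
    rw [← hcard]
    exact Finset.card_pos.2 ⟨a, Finset.mem_sdiff.2 ⟨haA, haB⟩⟩
  have hI : (A.erase a).card + 1 = r := by
    rw [Finset.card_erase_of_mem haA]
    have : 0 < A.card := Finset.card_pos.2 ⟨a, haA⟩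
    omega
  have hcoe : ∀ b : Fin n, ((insert b (A.erase a) : Finset (Fin n)) : Set (Fin n)) =
      insert b ((A : Set (Fin n)) \ {a}) := by
    intro b
    rw [Finset.coe_insert, Finset.coe_erase]
  rcases Nat.lt_or_ge 1 (B \ A).card with h2 | h2
  · obtain ⟨b, hb, c, hc, hbc⟩ := Finset.one_lt_card.1 h2
    rw [Finset.mem_sdiff] at hb hc
    have hbI : b ∉ A.erase a := fun h => hb.2 (Finset.mem_of_mem_erase h)
    have hcI : c ∉ A.erase a := fun h => hc.2 (Finset.mem_of_mem_erase h)
    rcases not_both hH hbI hbc hI with h | h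
    · exact ⟨b, ⟨by simpa using hb.1, by simpa using hb.2⟩, insert b (A.erase a), hcoe b, by
        rw [Finset.card_insert_of_notMem hbI]; omega, h⟩
    · exact ⟨c, ⟨by simpa using hc.1, by simpa using hc.2⟩, insert c (A.erase a), hcoe c, by
        rw [Finset.card_insert_of_notMem hcI]; omega, h⟩
  · have h3 : (B \ A).card = 1 := by omega
    obtain ⟨b, hb⟩ := Finset.card_eq_one.1 h3
    have hbm : b ∈ B \ A := by rw [hb]; exact Finset.mem_singleton_self b
    have hbm' := Finset.mem_sdiff.1 hbm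
    have hbI : b ∉ A.erase a := fun h => hbm'.2 (Finset.mem_of_mem_erase h)
    have h4 : (A \ B).card = 1 := by omega
    obtain ⟨a', ha'⟩ := Finset.card_eq_one.1 h4
    have haa : a = a' := by
      have : a ∈ A \ B := Finset.mem_sdiff.2 ⟨haA, haB⟩
      rw [ha'] at this
      exact Finset.mem_singleton.1 this
    have hsub : insert b (A.erase a) ⊆ B := by
      intro x hx
      rcases Finset.mem_insert.1 hx with h | h
      · rw [h]; exact hbm'.1
      · by_contra hxB
        have : x ∈ A \ B := Finset.mem_sdiff.2 ⟨Finset.mem_of_mem_erase h, hxB⟩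
        rw [ha', Finset.mem_singleton] at this
        exact (Finset.ne_of_mem_erase h) (by rw [this, haa])
    have heq : insert b (A.erase a) = B := by
      apply Finset.eq_of_subset_of_card_le hsub
      rw [Finset.card_insert_of_notMem hbI]
      omega
    exact ⟨b, ⟨by simpa using hbm'.1, by simpa using hbm'.2⟩, insert b (A.erase a), hcoe b, by
      rw [Finset.card_insert_of_notMem hbI]; omega, by rw [heq]; exact hBH⟩

/-- The sparse paving matroid of a code. -/
theorem exists_matroid {H : Finset (Finset (Fin n))} (hH : Code r H) (hr : 1 ≤ r)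
    (hn : r + 1 ≤ n) :
    ∃ M : Matroid (Fin n), M.E = univ ∧ ∀ B, M.IsBase B ↔ SpBase r H B := by
  obtain ⟨A, -, h2, h3⟩ := small_subset_base hH hr hn (I := ∅) (by simpa using hr)
  refine ⟨Matroid.ofIsBaseOfFinite (E := univ) (Set.toFinite _) (SpBase r H)
    ⟨A, A, rfl, h2, h3⟩ (spBase_exchange hH) (fun B _ => Set.subset_univ B), rfl, fun B => ?_⟩
  simp

/-! ### The excluded minors do not occur -/

theorem coe_toFinset_card {S : Set (Fin n)} {A : Finset (Fin n)} (h : (A : Set (Fin n)) = S) :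
    S.encard = A.card := by
  rw [← h, Set.encard_coe_eq_coe_finsetCard]

theorem no_minor {H : Finset (Finset (Fin n))} (hH : Code r H) {M : Matroid (Fin n)}
    (hM : ∀ B, M.IsBase B ↔ SpBase r H B) {N : Matroid (Fin n)} (hN : N ≤m M)
    {L : Finset (Finset (Fin 6))} (h1 : {0, 1, 3} ∈ L) (h2 : {1, 2, 4} ∈ L)
    (h2' : {0, 2, 5} ∈ L) (h3 : {0, 1, 2} ∉ L) : ¬ IsCopy L N := by
  classical
  rintro ⟨e, he, hrange, hb⟩
  obtain ⟨C, D, rfl⟩ := hN
  obtain ⟨I, hI⟩ := M.exists_isBasis' C
  set N := M ／ C ＼ D with hNdef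
  have hmem : ∀ x : Fin 6, e x ∈ N.E := fun x => by
    rw [← hrange]; exact ⟨x, rfl⟩
  have hsub : ∀ X : Set (Fin 6), e '' X ⊆ N.E := by
    rintro X _ ⟨x, _, rfl⟩
    exact hmem x
  have hind : ∀ X : Set (Fin n), X ⊆ N.E → (N.Indep X ↔ M.Indep (X ∪ I)) := by
    intro X hX
    rw [hNdef, Matroid.delete_indep_iff, hI.contract_indep_iff]
    have hd1 : Disjoint C X := by
      rw [Set.disjoint_left]
      intro x hxC hxX
      have := hX hxX
      rw [hNdef] at this
      simp only [Matroid.delete_ground, Matroid.contract_ground, mem_sdiff] at this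
      exact this.1.2 hxC
    have hd2 : Disjoint X D := by
      rw [Set.disjoint_left]
      intro x hxX hxD
      have := hX hxX
      rw [hNdef] at this
      simp only [Matroid.delete_ground, Matroid.contract_ground, mem_sdiff] at this
      exact this.2 hxD
    tauto
  -- the base given by the three spokes
  have hB0 : N.IsBase (e '' (({0, 1, 2} : Finset (Fin 6)) : Set (Fin 6))) :=
    (hb {0, 1, 2}).2 ⟨by decide, h3⟩
  set B0 : Set (Fin n) := e '' (({0, 1, 2} : Finset (Fin 6)) : Set (Fin 6)) with hB0def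
  have hB0I : M.Indep (B0 ∪ I) := (hind B0 (hsub _)).1 hB0.indep
  obtain ⟨B1, hB1, hB01⟩ := hB0I.exists_isBase_superset
  obtain ⟨A1, hA1, hA1c, -⟩ := (hM B1).1 hB1
  -- the contracted part
  have hout : ∀ x ∈ B1, x ∉ B0 → x ∉ N.E := by
    intro x hx hxB0 hxN
    have h4 : insert x B0 ⊆ N.E := Set.insert_subset hxN (hsub _)
    have h5 : M.Indep (insert x B0 ∪ I) := by
      apply hB1.indep.subset
      rintro y (hy | hy)
      · rcases hy with rfl | hy
        · exact hx
        · exact hB01 (Or.inl hy)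
      · exact hB01 (Or.inr hy)
    have h6 := (hind _ h4).2 h5
    have h7 := hB0.eq_of_subset_indep h6 (Set.subset_insert x B0)
    exact hxB0 (by rw [h7]; exact Set.mem_insert x B0)
  set F0 : Finset (Fin n) := Finset.image e {0, 1, 2} with hF0def
  have hF0 : (F0 : Set (Fin n)) = B0 := by
    rw [hF0def, Finset.coe_image]
  have hF0card : F0.card = 3 := by
    rw [hF0def, Finset.card_image_of_injective _ he]
    decide
  have hF0sub : F0 ⊆ A1 := by
    intro x hx
    have : x ∈ (A1 : Set (Fin n)) := by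
      rw [hA1]
      exact hB01 (Or.inl (by rw [← hF0]; exact hx))
    simpa using this
  set J : Finset (Fin n) := A1 \ F0 with hJdef
  have hJcard : J.card + 3 = r := by
    rw [hJdef, Finset.card_sdiff_of_subset hF0sub, hF0card, hA1c]
    have := Finset.card_le_card hF0sub
    omega
  have hJout : ∀ x ∈ J, x ∉ N.E := by
    intro x hx
    rw [hJdef, Finset.mem_sdiff] at hx
    apply hout x
    · rw [← hA1]; exact_mod_cast hx.1
    · rw [← hF0]; exact_mod_cast hx.2
  have hIJ : ∀ x ∈ I, x ∉ B0 → x ∈ J := by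
    intro x hx hx0
    rw [hJdef, Finset.mem_sdiff]
    constructor
    · have : x ∈ (A1 : Set (Fin n)) := by rw [hA1]; exact hB01 (Or.inr hx)
      simpa using this
    · intro h
      exact hx0 (by rw [← hF0]; exact_mod_cast h)
  have hIout : ∀ x ∈ I, x ∉ N.E := by
    intro x hx hxN
    have : x ∈ C := hI.subset hx
    rw [hNdef] at hxN
    simp only [Matroid.delete_ground, Matroid.contract_ground, mem_sdiff] at hxN
    exact hxN.1.2 this
  -- every line gives a member of the code
  have hline : ∀ X : Finset (Fin 6), X.card = 3 → X ∈ L → Finset.image e X ∪ J ∈ H := by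
    intro X hX hXL
    by_contra hcon
    have hdisj : Disjoint (Finset.image e X) J := by
      rw [Finset.disjoint_left]
      intro x hx hxJ
      obtain ⟨y, _, rfl⟩ := Finset.mem_image.1 hx
      exact hJout _ hxJ (hmem y)
    have hc : (Finset.image e X ∪ J).card = r := by
      rw [Finset.card_union_of_disjoint hdisj, Finset.card_image_of_injective _ he, hX]
      omega
    have hbase : M.IsBase ((Finset.image e X ∪ J : Finset (Fin n)) : Set (Fin n)) :=
      (hM _).2 ⟨_, rfl, hc, hcon⟩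
    have hindX : N.Indep (e '' (X : Set (Fin 6))) := by
      rw [hind _ (hsub _)]
      apply hbase.indep.subset
      rintro y (hy | hy)
      · rw [Finset.coe_union, Finset.coe_image]
        exact Or.inl hy
      · have hy0 : y ∉ B0 := fun h => hIout y hy (hsub _ h)
        rw [Finset.coe_union]
        exact Or.inr (by exact_mod_cast hIJ y hy hy0)
    obtain ⟨B2, hB2, hXB2⟩ := hindX.exists_isBase_superset
    have hc2 : B2.encard = (e '' (X : Set (Fin 6))).encard := by
      rw [hB2.encard_eq_encard_of_isBase hB0, ← hF0, Set.encard_coe_eq_coe_finsetCard, hF0card,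
        ← Finset.coe_image, Set.encard_coe_eq_coe_finsetCard,
        Finset.card_image_of_injective _ he, hX]
    have heq : e '' (X : Set (Fin 6)) = B2 :=
      (Set.toFinite (e '' (X : Set (Fin 6)))).eq_of_subset_of_encard_le hXB2 hc2.le
    have := (hb X).1 (by rw [heq]; exact hB2)
    exact this.2 hXL
  have hX1 := hline {0, 1, 3} (by decide) h1
  have hX2 := hline {1, 2, 4} (by decide) h2
  have hX3 := hline {0, 2, 5} (by decide) h2'
  have hdisj : ∀ X : Finset (Fin 6), Disjoint (Finset.image e X) J := by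
    intro X
    rw [Finset.disjoint_left]
    intro x hx hxJ
    obtain ⟨y, _, rfl⟩ := Finset.mem_image.1 hx
    exact hJout _ hxJ (hmem y)
  have hinter : ∀ X Y : Finset (Fin 6), (Finset.image e X ∪ J) ∩ (Finset.image e Y ∪ J) =
      Finset.image e (X ∩ Y) ∪ J := by
    intro X Y
    rw [← Finset.inter_union_distrib_right, Finset.image_inter _ _ he]
  have hcardU : ∀ X : Finset (Fin 6), (Finset.image e X ∪ J).card = X.card + J.card := by
    intro X
    rw [Finset.card_union_of_disjoint (hdisj X), Finset.card_image_of_injective _ he]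
  have hne : ∀ X Y : Finset (Fin 6), (X ∩ Y).card < X.card →
      Finset.image e X ∪ J ≠ Finset.image e Y ∪ J := by
    intro X Y hXY h
    have h4 := hinter X Y
    rw [← h, Finset.inter_self] at h4
    have h5 := congrArg Finset.card h4
    rw [hcardU, hcardU] at h5
    omega
  refine hH.triangle _ hX1 _ hX2 _ hX3 (hne _ _ (by decide)) (hne _ _ (by decide))
    (hne _ _ (by decide)) ?_ ?_ ?_ ?_
  · rw [hinter, hcardU, show (({0, 1, 3} : Finset (Fin 6)) ∩ {1, 2, 4}).card = 1 by decide]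
    omega
  · rw [hinter, hcardU, show (({1, 2, 4} : Finset (Fin 6)) ∩ {0, 2, 5}).card = 1 by decide]
    omega
  · rw [hinter, hcardU, show (({0, 1, 3} : Finset (Fin 6)) ∩ {0, 2, 5}).card = 1 by decide]
    omega
  · rw [hinter, hinter, hcardU,
      show (({0, 1, 3} : Finset (Fin 6)) ∩ {1, 2, 4} ∩ {0, 2, 5}).card = 0 by decide]
    omega

/-! ### 3-connectedness -/

theorem eRank_eq {H : Finset (Finset (Fin n))} {M : Matroid (Fin n)}
    (hM : ∀ B, M.IsBase B ↔ SpBase r H B) : M.eRank = r := by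
  obtain ⟨B, hB⟩ := M.exists_isBase
  obtain ⟨A, hA, hAc, -⟩ := (hM B).1 hB
  rw [← hB.encard_eq_eRank, coe_toFinset_card hA, hAc]

theorem threeConnected {H : Finset (Finset (Fin n))} (hH : Code r H) {M : Matroid (Fin n)}
    (hE : M.E = univ) (hM : ∀ B, M.IsBase B ↔ SpBase r H B) (hr : 3 ≤ r) (hn : 2 * r + 1 ≤ n) :
    ThreeConnected M := by
  classical
  have hrank := eRank_eq hM
  have hsmall : ∀ X : Finset (Fin n), X.card + 1 ≤ r → M.eRk (X : Set (Fin n)) = X.card := by
    intro X hX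
    obtain ⟨A, h1, h2, h3⟩ := small_subset_base hH (by omega) (by omega : r + 1 ≤ n) hX
    have h4 : M.IsBase (A : Set (Fin n)) := (hM _).2 ⟨A, rfl, h2, h3⟩
    have h5 : M.Indep (X : Set (Fin n)) := h4.indep.subset (by exact_mod_cast h1)
    rw [h5.eRk_eq_encard, Set.encard_coe_eq_coe_finsetCard]
  have hlarge : ∀ X : Finset (Fin n), r + 1 ≤ X.card → (r : ℕ∞) ≤ M.eRk (X : Set (Fin n)) := by
    intro X hX
    obtain ⟨A, h1, h2, h3⟩ := large_superset_base hH (by omega) hX
    have h4 : M.IsBase (A : Set (Fin n)) := (hM _).2 ⟨A, rfl, h2, h3⟩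
    calc (r : ℕ∞) = M.eRk (A : Set (Fin n)) := by rw [h4.eRk_eq_eRank, hrank]
      _ ≤ M.eRk (X : Set (Fin n)) := M.eRk_mono (by exact_mod_cast h1)
  have hmid : ∀ X : Finset (Fin n), r ≤ X.card → ((r - 1 : ℕ) : ℕ∞) ≤ M.eRk (X : Set (Fin n)) := by
    intro X hX
    obtain ⟨Y, h1, h2⟩ := Finset.exists_subset_card_eq (s := X) (n := r - 1) (by omega)
    calc ((r - 1 : ℕ) : ℕ∞) = M.eRk (Y : Set (Fin n)) := by
          rw [hsmall Y (by omega), h2]
      _ ≤ M.eRk (X : Set (Fin n)) := M.eRk_mono (by exact_mod_cast h1)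
  intro X0 _ k hk hk1 hk2
  rw [hE] at hk2 ⊢
  obtain ⟨X, rfl⟩ : ∃ X : Finset (Fin n), (X : Set (Fin n)) = X0 :=
    ⟨X0.toFinite.toFinset, Set.Finite.coe_toFinset _⟩
  have hcompl : (univ : Set (Fin n)) \ (X : Set (Fin n)) = ((Xᶜ : Finset (Fin n)) : Set (Fin n)) := by
    rw [Finset.coe_compl, Set.compl_eq_univ_sdiff]
  rw [hcompl] at hk2 ⊢
  rw [Set.encard_coe_eq_coe_finsetCard] at hk1 hk2
  have hk1' : k ≤ X.card := by exact_mod_cast hk1
  have hk2' : k ≤ (Xᶜ).card := by exact_mod_cast hk2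
  have hsum : X.card + (Xᶜ).card = n := by
    rw [Finset.card_compl, Fintype.card_fin]
    have := Finset.card_le_univ X
    rw [Fintype.card_fin] at this
    omega
  rw [hrank]
  rcases Nat.lt_or_ge X.card r with h1 | h1
  · have h2 : r + 1 ≤ (Xᶜ).card := by omega
    rw [hsmall X (by omega), add_comm]
    exact add_le_add (by exact_mod_cast hk1') (hlarge _ h2)
  · rcases Nat.lt_or_ge (Xᶜ).card r with h3 | h3
    · have h2 : r + 1 ≤ X.card := by omega
      rw [hsmall (Xᶜ) (by omega)]
      exact add_le_add (hlarge _ h2) (by exact_mod_cast hk2')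
    · have hk' : k ≤ r - 1 := by rcases hk with rfl | rfl <;> omega
      have h4 : (k : ℕ∞) ≤ ((r - 1 : ℕ) : ℕ∞) := by exact_mod_cast hk'
      rcases Nat.lt_or_ge r X.card with h5 | h5
      · exact add_le_add (hlarge _ h5) (h4.trans (hmid _ h3))
      · rw [add_comm]
        exact add_le_add (h4.trans (hmid _ h1)) (hlarge _ (by omega))

/-! ### The Graham-Sloane code -/

theorem sum_eq_of {q : ℕ} {A B : Finset (Fin n)} (g : Fin n → ZMod q)
    (h : ∑ i ∈ A, g i = ∑ i ∈ B, g i) : ∑ i ∈ A \ B, g i = ∑ i ∈ B \ A, g i := by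
  have h1 := Finset.sum_sdiff_sub_sum_sdiff (s₁ := A) (s₂ := B) (f := g)
  rw [h, sub_self] at h1
  exact (sub_eq_zero.1 h1).symm

theorem cast_inj {q : ℕ} (hq : n < q) {x y : Fin n} (h : ((x : ℕ) : ZMod q) = ((y : ℕ) : ZMod q)) :
    x = y := by
  have h1 := congrArg ZMod.val h
  rw [ZMod.val_natCast_of_lt (lt_trans x.2 hq), ZMod.val_natCast_of_lt (lt_trans y.2 hq)] at h1
  exact Fin.ext h1

theorem dist_six {q : ℕ} (hqp : q.Prime) (hq2 : q ≠ 2) (hq : n < q) {A B : Finset (Fin n)}
    (hA : A.card = r) (hB : B.card = r) (hne : A ≠ B)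
    (h1 : ∑ i ∈ A, ((i : ℕ) : ZMod q) = ∑ i ∈ B, ((i : ℕ) : ZMod q))
    (h2 : ∑ i ∈ A, ((i : ℕ) : ZMod q) ^ 2 = ∑ i ∈ B, ((i : ℕ) : ZMod q) ^ 2) :
    (A ∩ B).card + 3 ≤ r := by
  have : Fact q.Prime := ⟨hqp⟩
  have hcard : (A \ B).card = (B \ A).card := Finset.card_sdiff_comm (by omega)
  have hadd : (A \ B).card + (A ∩ B).card = r := by
    rw [Finset.card_sdiff_add_card_inter, hA]
  by_contra hcon
  have hle : (A \ B).card ≤ 2 := by omega
  have h1' := sum_eq_of _ h1
  have h2' := sum_eq_of _ h2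
  have hpos : (A \ B).card ≠ 0 := by
    intro h0
    have h3 : A ⊆ B := Finset.sdiff_eq_empty_iff_subset.1 (Finset.card_eq_zero.1 h0)
    exact hne (Finset.eq_of_subset_of_card_le h3 (by omega))
  have hcases : (A \ B).card = 1 ∨ (A \ B).card = 2 := by omega
  rcases hcases with hc | hc
  · obtain ⟨x, hx⟩ := Finset.card_eq_one.1 hc
    obtain ⟨y, hy⟩ := Finset.card_eq_one.1 (hcard ▸ hc : (B \ A).card = 1)
    rw [hx, hy, Finset.sum_singleton, Finset.sum_singleton] at h1'
    have hxy := cast_inj hq h1'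
    have hxm : x ∈ A \ B := by rw [hx]; exact Finset.mem_singleton_self x
    have hym : y ∈ B \ A := by rw [hy]; exact Finset.mem_singleton_self y
    rw [Finset.mem_sdiff] at hxm hym
    exact hxm.2 (by rw [hxy]; exact hym.1)
  · obtain ⟨x, y, hxy, hx⟩ := Finset.card_eq_two.1 hc
    obtain ⟨z, w, hzw, hz⟩ := Finset.card_eq_two.1 (hcard ▸ hc : (B \ A).card = 2)
    rw [hx, hz, Finset.sum_pair hxy, Finset.sum_pair hzw] at h1' h2'
    have hxm : x ∈ A \ B := by rw [hx]; simp
    have hzm : z ∈ B \ A := by rw [hz]; simp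
    have hwm : w ∈ B \ A := by rw [hz]; simp
    rw [Finset.mem_sdiff] at hxm hzm hwm
    have htwo : (2 : ZMod q) ≠ 0 := by
      intro h
      have h3 : ((2 : ℕ) : ZMod q) = 0 := by exact_mod_cast h
      rw [ZMod.natCast_eq_zero_iff] at h3
      have := (Nat.prime_dvd_prime_iff_eq hqp Nat.prime_two).1 h3
      exact hq2 this
    have hprod : (2 : ZMod q) * ((((x : ℕ) : ZMod q) - ((z : ℕ) : ZMod q)) *
        (((x : ℕ) : ZMod q) - ((w : ℕ) : ZMod q))) = 0 := by
      linear_combination (((x : ℕ) : ZMod q) - ((y : ℕ) : ZMod q) - ((z : ℕ) : ZMod q) -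
        ((w : ℕ) : ZMod q)) * h1' + h2'
    rcases mul_eq_zero.1 hprod with h | h
    · exact htwo h
    · rcases mul_eq_zero.1 h with h | h
      · exact hxm.2 (by rw [cast_inj hq (sub_eq_zero.1 h)]; exact hzm.1)
      · exact hxm.2 (by rw [cast_inj hq (sub_eq_zero.1 h)]; exact hwm.1)

theorem exists_code (hn : 2 ≤ n) : ∃ S : Finset (Finset (Fin n)), Code r S ∧
    n.choose r / (4 * n ^ 2) ≤ S.card := by
  classical
  obtain ⟨q, hqp, hq1, hq2⟩ := Nat.exists_prime_lt_and_le_two_mul n (by omega)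
  have : Fact q.Prime := ⟨hqp⟩
  have : NeZero q := ⟨hqp.ne_zero⟩
  set T : Finset (Fin n) → ZMod q × ZMod q :=
    fun A => (∑ i ∈ A, ((i : ℕ) : ZMod q), ∑ i ∈ A, ((i : ℕ) : ZMod q) ^ 2) with hT
  have hcard : (Finset.univ : Finset (ZMod q × ZMod q)).card * (n.choose r / (4 * n ^ 2)) ≤
      (Finset.powersetCard r (Finset.univ : Finset (Fin n))).card := by
    rw [Finset.card_powersetCard, Finset.card_univ, Finset.card_univ, Fintype.card_fin,
      Fintype.card_prod, ZMod.card]
    calc q * q * (n.choose r / (4 * n ^ 2)) ≤ (2 * n) * (2 * n) * (n.choose r / (4 * n ^ 2)) :=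
          Nat.mul_le_mul_right _ (Nat.mul_le_mul hq2 hq2)
      _ = (4 * n ^ 2) * (n.choose r / (4 * n ^ 2)) := by ring
      _ ≤ n.choose r := Nat.mul_div_le _ _
  obtain ⟨t, -, ht⟩ := Finset.exists_le_card_fiber_of_mul_le_card_of_maps_to
    (f := T) (fun a _ => Finset.mem_univ (T a)) Finset.univ_nonempty hcard
  refine ⟨_, Code.of_distance_six ?_ ?_, ht⟩
  · intro A hA
    rw [Finset.mem_filter, Finset.mem_powersetCard] at hA
    exact hA.1.2
  · intro A hA B hB hne
    rw [Finset.mem_filter, Finset.mem_powersetCard] at hA hB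
    have h3 : T A = T B := by rw [hA.2, hB.2]
    have h4 := congrArg Prod.fst h3
    have h5 := congrArg Prod.snd h3
    exact dist_six hqp (by omega) hq1 hA.1.2 hB.1.2 hne h4 h5

/-! ### Non-isomorphic representatives -/

theorem iso_refl (M : Matroid (Fin n)) : Iso M M :=
  ⟨Equiv.refl _, fun B => by simp⟩

theorem exists_representatives (F0 : Finset (Matroid (Fin n))) (hE : ∀ M ∈ F0, M.E = univ) :
    ∃ F : Finset (Matroid (Fin n)), F ⊆ F0 ∧ (∀ M ∈ F, ∀ N ∈ F, M ≠ N → ¬ Iso M N) ∧
      F0.card ≤ F.card * n.factorial := by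
  classical
  set P : Finset (Finset (Matroid (Fin n))) := F0.powerset.filter
    (fun F => ∀ M ∈ F, ∀ N ∈ F, M ≠ N → ¬ Iso M N) with hP
  have hPne : P.Nonempty := ⟨∅, by simp [hP]⟩
  obtain ⟨F, hF, hmax⟩ := Finset.exists_max_image P Finset.card hPne
  rw [hP, Finset.mem_filter, Finset.mem_powerset] at hF
  refine ⟨F, hF.1, hF.2, ?_⟩
  have hcover : ∀ M ∈ F0, ∃ N ∈ F, Iso M N ∨ Iso N M := by
    intro M hM
    by_contra hcon
    push Not at hcon
    have hMF : M ∉ F := fun h => (hcon M h).1 (iso_refl M)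
    have h1 : insert M F ∈ P := by
      rw [hP, Finset.mem_filter, Finset.mem_powerset]
      refine ⟨Finset.insert_subset hM hF.1, ?_⟩
      intro A hA B hB hne
      rcases Finset.mem_insert.1 hA with h | h
      · rcases Finset.mem_insert.1 hB with h' | h'
        · exact absurd (h.trans h'.symm) hne
        · rw [h]; exact (hcon B h').1
      · rcases Finset.mem_insert.1 hB with h' | h'
        · rw [h']; exact (hcon A h).2
        · exact hF.2 A h B h' hne
    have h2 := hmax _ h1
    rw [Finset.card_insert_of_notMem hMF] at h2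
    omega
  have hiso : ∀ M ∈ F0, ∃ N ∈ F, Iso M N := by
    intro M hM
    obtain ⟨N, hN, h | h⟩ := hcover M hM
    · exact ⟨N, hN, h⟩
    · obtain ⟨σ, hσ⟩ := h
      refine ⟨N, hN, σ.symm, fun B => ?_⟩
      rw [hσ, Equiv.image_symm_eq_preimage, Set.image_preimage_eq _ σ.surjective]
  -- reconstruct `M` from `N` and the permutation
  set g : Matroid (Fin n) × Equiv.Perm (Fin n) → Matroid (Fin n) := fun p =>
    if h : ∃ M : Matroid (Fin n), M.E = univ ∧ ∀ B, M.IsBase B ↔ p.1.IsBase (p.2 '' B)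
    then h.choose else p.1 with hg
  have hsub : F0 ⊆ (F ×ˢ (Finset.univ : Finset (Equiv.Perm (Fin n)))).image g := by
    intro M hM
    obtain ⟨N, hN, σ, hσ⟩ := hiso M hM
    rw [Finset.mem_image]
    refine ⟨(N, σ), by simp [hN], ?_⟩
    have hex : ∃ M : Matroid (Fin n), M.E = univ ∧ ∀ B, M.IsBase B ↔ N.IsBase (σ '' B) :=
      ⟨M, hE M hM, hσ⟩
    rw [hg]
    simp only
    rw [dif_pos hex]
    have h1 := hex.choose_spec
    apply Matroid.ext_isBase
    · rw [h1.1, hE M hM]
    · intro B _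
      rw [h1.2 B, hσ B]
  calc F0.card ≤ ((F ×ˢ (Finset.univ : Finset (Equiv.Perm (Fin n)))).image g).card :=
        Finset.card_le_card hsub
    _ ≤ (F ×ˢ (Finset.univ : Finset (Equiv.Perm (Fin n)))).card := Finset.card_image_le
    _ = F.card * n.factorial := by
        rw [Finset.card_product, Finset.card_univ, Fintype.card_perm, Fintype.card_fin]

/-! ### A triangle-free triple system -/

/-- The triple with parameters `x` and `a`. -/
def trip (m x a : ℕ) : Finset ℕ := {x, m + x + a, 3 * m + x + 2 * a}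

theorem mem_trip {m x a y : ℕ} : y ∈ trip m x a ↔ y = x ∨ y = m + x + a ∨ y = 3 * m + x + 2 * a := by
  simp [trip]

theorem card_trip {m x a : ℕ} (hx : x < m) (ha : a < m) : (trip m x a).card = 3 := by
  have h1 : x ∉ ({m + x + a, 3 * m + x + 2 * a} : Finset ℕ) := by
    simp only [Finset.mem_insert, Finset.mem_singleton]
    omega
  have h2 : m + x + a ∉ ({3 * m + x + 2 * a} : Finset ℕ) := by
    simp only [Finset.mem_singleton]
    omega
  rw [trip, Finset.card_insert_of_notMem h1, Finset.card_insert_of_notMem h2,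
    Finset.card_singleton]

/-- Two triples with a common point agree in one of the three linear forms. -/
theorem common_point {m x a x' a' y : ℕ} (hx : x < m) (ha : a < m) (hx' : x' < m) (ha' : a' < m)
    (h1 : y ∈ trip m x a) (h2 : y ∈ trip m x' a') :
    (y = x ∧ x = x') ∨ (y = m + x + a ∧ x + a = x' + a') ∨
      (y = 3 * m + x + 2 * a ∧ x + 2 * a = x' + 2 * a') := by
  rw [mem_trip] at h1 h2
  omega

theorem exists_triples (m : ℕ) (hn : 6 * m ≤ n) : ∃ S : Finset (Finset (Fin n)), Code 3 S ∧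
    m * rothNumberNat m ≤ S.card := by
  classical
  obtain ⟨t, ht1, ht2, ht3⟩ := rothNumberNat_spec m
  have htm : ∀ a ∈ t, a < m := fun a ha => Finset.mem_range.1 (ht1 ha)
  -- the triples as subsets of `Fin n`
  set up : Finset ℕ → Finset (Fin n) := fun T => Finset.univ.filter (fun i : Fin n => (i : ℕ) ∈ T)
    with hup
  have hupmap : ∀ T : Finset ℕ, (∀ y ∈ T, y < n) → (up T).map Fin.valEmbedding = T := by
    intro T hT
    ext y
    rw [Finset.mem_map]
    constructor
    · rintro ⟨i, hi, rfl⟩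
      rw [hup, Finset.mem_filter] at hi
      exact hi.2
    · intro hy
      exact ⟨⟨y, hT y hy⟩, by rw [hup, Finset.mem_filter]; exact ⟨Finset.mem_univ _, hy⟩, rfl⟩
  have hupcard : ∀ T : Finset ℕ, (∀ y ∈ T, y < n) → (up T).card = T.card := by
    intro T hT
    rw [← Finset.card_map Fin.valEmbedding, hupmap T hT]
  have hupinter : ∀ T T' : Finset ℕ, up T ∩ up T' = up (T ∩ T') := by
    intro T T'
    ext i
    simp [hup]
  have hlt : ∀ x a : ℕ, x < m → a < m → ∀ y ∈ trip m x a, y < n := by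
    intro x a hx ha y hy
    rw [mem_trip] at hy
    omega
  have hlt2 : ∀ x a x' a' : ℕ, x < m → a < m → ∀ y ∈ trip m x a ∩ trip m x' a', y < n :=
    fun x a x' a' hx ha y hy => hlt x a hx ha y (Finset.mem_inter.1 hy).1
  -- two triples with two common points are equal
  have htwo : ∀ x a x' a' : ℕ, x < m → a < m → x' < m → a' < m →
      2 ≤ (trip m x a ∩ trip m x' a').card → x = x' ∧ a = a' := by
    intro x a x' a' hx ha hx' ha' h
    obtain ⟨y, hy, z, hz, hyz⟩ := Finset.one_lt_card.1 h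
    rw [Finset.mem_inter] at hy hz
    have h1 := common_point hx ha hx' ha' hy.1 hy.2
    have h2 := common_point hx ha hx' ha' hz.1 hz.2
    omega
  set S : Finset (Finset (Fin n)) :=
    (Finset.range m ×ˢ t).image (fun p => up (trip m p.1 p.2)) with hS
  have hmemS : ∀ A ∈ S, ∃ x a : ℕ, x < m ∧ a ∈ t ∧ A = up (trip m x a) := by
    intro A hA
    rw [hS, Finset.mem_image] at hA
    obtain ⟨⟨x, a⟩, hp, rfl⟩ := hA
    rw [Finset.mem_product] at hp
    exact ⟨x, a, Finset.mem_range.1 hp.1, hp.2, rfl⟩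
  have hinj : Set.InjOn (fun p : ℕ × ℕ => up (trip m p.1 p.2))
      ((Finset.range m ×ˢ t : Finset (ℕ × ℕ)) : Set (ℕ × ℕ)) := by
    rintro ⟨x, a⟩ hp ⟨x', a'⟩ hp' heq
    simp only [Finset.coe_product, Set.mem_prod, Finset.mem_coe, Finset.mem_range] at hp hp'
    simp only at heq
    have h1 : trip m x a = trip m x' a' := by
      rw [← hupmap _ (hlt x a hp.1 (htm a hp.2)), ← hupmap _ (hlt x' a' hp'.1 (htm a' hp'.2)), heq]
    have h2 := htwo x a x' a' hp.1 (htm a hp.2) hp'.1 (htm a' hp'.2) (by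
      rw [← h1, Finset.inter_self, card_trip hp.1 (htm a hp.2)]; omega)
    rw [h2.1, h2.2]
  refine ⟨S, ⟨?_, ?_, ?_⟩, ?_⟩
  · intro A hA
    obtain ⟨x, a, hx, ha, rfl⟩ := hmemS A hA
    rw [hupcard _ (hlt x a hx (htm a ha)), card_trip hx (htm a ha)]
  · intro A hA B hB hne
    obtain ⟨x, a, hx, ha, rfl⟩ := hmemS A hA
    obtain ⟨x', a', hx', ha', rfl⟩ := hmemS B hB
    rw [hupinter, hupcard _ (hlt2 x a x' a' hx (htm a ha))]
    by_contra hcon
    obtain ⟨h1, h2⟩ := htwo x a x' a' hx (htm a ha) hx' (htm a' ha') (by omega)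
    exact hne (by rw [h1, h2])
  · intro A hA B hB C hC hAB hBC hAC h1 h2 h3 h4
    obtain ⟨x, a, hx, ha, rfl⟩ := hmemS A hA
    obtain ⟨x', a', hx', ha', rfl⟩ := hmemS B hB
    obtain ⟨x'', a'', hx'', ha'', rfl⟩ := hmemS C hC
    have hma := htm a ha
    have hma' := htm a' ha'
    have hma'' := htm a'' ha''
    rw [hupinter, hupcard _ (hlt2 _ _ _ _ hx hma)] at h1
    rw [hupinter, hupcard _ (hlt2 _ _ _ _ hx' hma')] at h2
    rw [hupinter, hupcard _ (hlt2 _ _ _ _ hx hma)] at h3
    rw [hupinter, hupinter, hupcard _ (fun y hy => hlt2 _ _ _ _ hx hma y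
      (Finset.mem_inter.1 hy).1)] at h4
    have h5 : trip m x a ∩ trip m x' a' ∩ trip m x'' a'' = ∅ := Finset.card_eq_zero.1 (by omega)
    obtain ⟨y1, hy1⟩ := Finset.card_pos.1 (by omega : 0 < (trip m x a ∩ trip m x' a').card)
    obtain ⟨y2, hy2⟩ := Finset.card_pos.1 (by omega : 0 < (trip m x' a' ∩ trip m x'' a'').card)
    obtain ⟨y3, hy3⟩ := Finset.card_pos.1 (by omega : 0 < (trip m x a ∩ trip m x'' a'').card)
    rw [Finset.mem_inter] at hy1 hy2 hy3
    have hn1 : y1 ∉ trip m x'' a'' := fun h => by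
      have : y1 ∈ trip m x a ∩ trip m x' a' ∩ trip m x'' a'' :=
        Finset.mem_inter.2 ⟨Finset.mem_inter.2 hy1, h⟩
      rw [h5] at this
      exact absurd this (Finset.notMem_empty _)
    have c1 := common_point hx hma hx' hma' hy1.1 hy1.2
    have c2 := common_point hx' hma' hx'' hma'' hy2.1 hy2.2
    have c3 := common_point hx hma hx'' hma'' hy3.1 hy3.2
    rw [mem_trip] at hn1
    have f1 : a' + a'' = a + a → a' = a := fun h => ht3 ha' ha ha'' h
    have f2 : a + a'' = a' + a' → a = a' := fun h => ht3 ha ha' ha'' h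
    have f3 : a + a' = a'' + a'' → a = a'' := fun h => ht3 ha ha'' ha' h
    have e1 : ¬ (x = x' ∧ a = a') := fun h => hAB (by rw [h.1, h.2])
    have e2 : ¬ (x' = x'' ∧ a' = a'') := fun h => hBC (by rw [h.1, h.2])
    have e3 : ¬ (x = x'' ∧ a = a'') := fun h => hAC (by rw [h.1, h.2])
    omega
  · rw [hS, Finset.card_image_of_injOn hinj, Finset.card_product, Finset.card_range, ht2]

/-! ### The theorem -/

theorem many_of_code (hr : 3 ≤ r) (hn : 2 * r + 1 ≤ n) {S : Finset (Finset (Fin n))}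
    (hS : Code r S) : ∃ F : Finset (Matroid (Fin n)),
      (∀ M ∈ F, M.E = univ ∧ M.eRank = r ∧ ThreeConnected M ∧ InEX M) ∧
      (∀ M ∈ F, ∀ N ∈ F, M ≠ N → ¬ Iso M N) ∧ 2 ^ S.card ≤ F.card * n.factorial := by
  classical
  have hex : ∀ H : Finset (Finset (Fin n)), ∃ M : Matroid (Fin n), H ⊆ S →
      M.E = univ ∧ ∀ B, M.IsBase B ↔ SpBase r H B := by
    intro H
    by_cases hH : H ⊆ S
    · obtain ⟨M, h1, h2⟩ := exists_matroid (hS.mono hH) (by omega) (by omega)
      exact ⟨M, fun _ => ⟨h1, h2⟩⟩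
    · exact ⟨Matroid.emptyOn (Fin n), fun h => absurd h hH⟩
  choose m hm using hex
  have hinj : Set.InjOn m (S.powerset : Set (Finset (Finset (Fin n)))) := by
    intro H hH H' hH' heq
    have hH1 : H ⊆ S := by simpa using hH
    have hH2 : H' ⊆ S := by simpa using hH'
    have h1 := (hm H hH1).2
    have h2 := (hm H' hH2).2
    ext A
    constructor
    · intro hA
      by_contra hA'
      have hb : (m H').IsBase (A : Set (Fin n)) := (h2 _).2 ⟨A, rfl, hS.card_eq A (hH1 hA), hA'⟩
      rw [← heq, h1] at hb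
      obtain ⟨A', h3, _, h5⟩ := hb
      rw [Finset.coe_inj] at h3
      exact h5 (by rw [h3]; exact hA)
    · intro hA
      by_contra hA'
      have hb : (m H).IsBase (A : Set (Fin n)) := (h1 _).2 ⟨A, rfl, hS.card_eq A (hH2 hA), hA'⟩
      rw [heq, h2] at hb
      obtain ⟨A', h3, _, h5⟩ := hb
      rw [Finset.coe_inj] at h3
      exact h5 (by rw [h3]; exact hA)
  set F0 : Finset (Matroid (Fin n)) := S.powerset.image m with hF0
  have hF0card : F0.card = 2 ^ S.card := by
    rw [hF0, Finset.card_image_of_injOn hinj, Finset.card_powerset]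
  have hgood : ∀ M ∈ F0, M.E = univ ∧ M.eRank = r ∧ ThreeConnected M ∧ InEX M := by
    intro M hM
    rw [hF0, Finset.mem_image] at hM
    obtain ⟨H, hH, rfl⟩ := hM
    have hH' : H ⊆ S := by simpa using hH
    obtain ⟨h1, h2⟩ := hm H hH'
    refine ⟨h1, eRank_eq h2, threeConnected (hS.mono hH') h1 h2 hr hn, ?_⟩
    intro N hN
    exact ⟨no_minor (hS.mono hH') h2 hN (by decide) (by decide) (by decide) (by decide),
      no_minor (hS.mono hH') h2 hN (by decide) (by decide) (by decide) (by decide)⟩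
  obtain ⟨F, hF1, hF2, hF3⟩ := exists_representatives F0 (fun M hM => (hgood M hM).1)
  exact ⟨F, fun M hM => hgood M (hF1 hM), hF2, hF0card ▸ hF3⟩

/-- In every rank `r ≥ 3` the class of matroids without `M(K_4)`- and rank three whirl minors is
wild.  For all `r ≥ 3` and `n ≥ 2r + 1` there is a family of pairwise non-isomorphic 3-connected
rank `r` matroids on `{0, ..., n - 1}` in the class whose size times `n!` is at least `2 ^ k`, where
`k` is at least `binomial(n, r) / (4 n^2)` and, in rank three, also at least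
`m^2 exp(-4 sqrt(log m))` with `m = floor(n / 6)`. -/
theorem result (r n : ℕ) (hr : 3 ≤ r) (hn : 2 * r + 1 ≤ n) :
    ∃ F : Finset (Matroid (Fin n)), ∃ k : ℕ,
      (∀ M ∈ F, M.E = univ ∧ M.eRank = r ∧ ThreeConnected M ∧ InEX M) ∧
      (∀ M ∈ F, ∀ N ∈ F, M ≠ N → ¬ Iso M N) ∧
      n.choose r / (4 * n ^ 2) ≤ k ∧
      (r = 3 → ((n / 6 : ℕ) : ℝ) ^ 2 * Real.exp (-4 * √(Real.log ((n / 6 : ℕ) : ℝ))) ≤ k) ∧
      2 ^ k ≤ F.card * n.factorial := by
  obtain ⟨S, hS, hScard⟩ := exists_code (n := n) (r := r) (by omega)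
  by_cases hr3 : r = 3
  · subst hr3
    obtain ⟨S', hS', hScard'⟩ := exists_triples (n := n) (n / 6) (by omega)
    have h4 := Behrend.roth_lower_bound (N := n / 6)
    have h5 : ((n / 6 : ℕ) : ℝ) ^ 2 * Real.exp (-4 * √(Real.log ((n / 6 : ℕ) : ℝ))) ≤ S'.card := by
      calc ((n / 6 : ℕ) : ℝ) ^ 2 * Real.exp (-4 * √(Real.log ((n / 6 : ℕ) : ℝ)))
          = ((n / 6 : ℕ) : ℝ) *
            (((n / 6 : ℕ) : ℝ) * Real.exp (-4 * √(Real.log ((n / 6 : ℕ) : ℝ)))) := by ring
        _ ≤ ((n / 6 : ℕ) : ℝ) * (rothNumberNat (n / 6) : ℝ) :=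
            mul_le_mul_of_nonneg_left h4 (Nat.cast_nonneg _)
        _ ≤ (S'.card : ℝ) := by exact_mod_cast hScard'
    rcases le_total S.card S'.card with h | h
    · obtain ⟨F, h1, h2, h3⟩ := many_of_code hr hn hS'
      exact ⟨F, S'.card, h1, h2, hScard.trans h, fun _ => h5, h3⟩
    · obtain ⟨F, h1, h2, h3⟩ := many_of_code hr hn hS
      exact ⟨F, S.card, h1, h2, hScard, fun _ => h5.trans (by exact_mod_cast h), h3⟩
  · obtain ⟨F, h1, h2, h3⟩ := many_of_code hr hn hS
    exact ⟨F, S.card, h1, h2, hScard, fun h => absurd h hr3, h3⟩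

end Pool.Agent.Results.MP_668654_co.Wildness
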